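import Pool.Agent.Helper12_UNF.Stmts

set_option autoImplicit false

/-!
# RTR: retraction of the pure Artin group onto the pure Artin group of a parabolic subgroup
-/

namespace Unf.H34

open Art Unf

/-- Values of the cocycle on a parabolic subgroup. -/
theorem q_mem {S : Type} (M : CoxeterMatrix S) (q : Gp M →* M.Group)
    (hq : ∀ s, q (gen M s) = M.simple s) (U : Set S) {z : Gp M} (hz : z ∈ P M U) :
    q z ∈ WP M U := by
  unfold P at hz
  induction hz using Subgroup.closure_induction with
  | mem x hx =>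
    obtain ⟨s, hs, rfl⟩ := hx
    rw [hq]
    exact Subgroup.subset_closure ⟨s, hs, rfl⟩
  | one =>
    rw [map_one]
    exact one_mem _
  | mul x y _ _ hx hy =>
    rw [map_mul]
    exact mul_mem hx hy
  | inv x _ hx =>
    rw [map_inv]
    exact inv_mem hx

theorem c_one {S : Type} (M : CoxeterMatrix S) {D : Set S} (q : Gp M →* M.Group)
    (c : Gp M → M.Group → Gp (res M D))
    (hc : ∀ x y w, c (x * y) w = c x w * c y (w * q x)) (w : M.Group) : c 1 w = 1 := by
  have h := hc 1 1 w
  rw [map_one, mul_one, mul_one] at h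
  exact (mul_eq_left (a := c 1 w)).1 h.symm

theorem c_inv {S : Type} (M : CoxeterMatrix S) {D : Set S} (q : Gp M →* M.Group)
    (c : Gp M → M.Group → Gp (res M D))
    (hc : ∀ x y w, c (x * y) w = c x w * c y (w * q x)) (x : Gp M) (w : M.Group) :
    c x⁻¹ w = (c x (w * q x⁻¹))⁻¹ := by
  have h := hc x⁻¹ x w
  rw [inv_mul_cancel, c_one M q c hc] at h
  exact eq_inv_of_mul_eq_one_left h.symm

theorem rtr (h : CocStmt) : RtrStmt := by
  intro S _ M D q hq
  obtain ⟨c, p, hc, hD, hU, hΦq⟩ := h M D q hq
  obtain ⟨Φ, hΦ⟩ := inc M D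
  have hΦD : ∀ z : Gp (res M D), Φ z ∈ P M D := by
    intro z
    have hz : z ∈ Subgroup.closure (Set.range (gen (res M D))) := by
      rw [closure_gen]
      trivial
    induction hz using Subgroup.closure_induction with
    | mem x hx =>
      obtain ⟨s, rfl⟩ := hx
      rw [hΦ]
      exact Subgroup.subset_closure ⟨s.1, s.2, rfl⟩
    | one =>
      rw [map_one]
      exact one_mem _
    | mul x y _ _ hx hy =>
      rw [map_mul]
      exact mul_mem hx hy
    | inv x _ hx =>
      rw [map_inv]
      exact inv_mem hx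
  have hq1 : ∀ x : q.ker, q x.1 = 1 := fun x => x.2
  have hker : ∀ x : q.ker, Φ (c x.1 1) ∈ q.ker := by
    intro x
    rw [MonoidHom.mem_ker, hΦq Φ hΦ, hq1 x, mul_one, inv_mul_cancel]
  -- the cocycle on `P M D`
  have hfix : ∀ z ∈ P M D, ∀ w ∈ WP M D, Φ (c z w) = z := by
    intro z hz
    unfold P at hz
    induction hz using Subgroup.closure_induction with
    | mem x hx =>
      intro w hw
      obtain ⟨s, hs, rfl⟩ := hx
      have e := hD ⟨s, hs⟩ w hw
      have e' : c (gen M s) w = gen (res M D) ⟨s, hs⟩ := e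
      rw [e', hΦ]
    | one =>
      intro w _
      rw [c_one M q c hc, map_one]
    | mul x y hx' _ hx hy =>
      intro w hw
      rw [hc, map_mul, hx w hw, hy _ (mul_mem hw (q_mem M q hq D hx'))]
    | inv x hx' hx =>
      intro w hw
      have hw' : w * q x⁻¹ ∈ WP M D := by
        rw [map_inv]
        exact mul_mem hw (inv_mem (q_mem M q hq D hx'))
      rw [c_inv M q c hc, map_inv, hx _ hw']
  -- the cocycle on `P M U`
  have hcU : ∀ U : Set S, ∀ z ∈ P M U, ∀ w ∈ WP M U, Φ (c z w) ∈ P M (D ∩ U) := by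
    intro U z hz
    unfold P at hz
    induction hz using Subgroup.closure_induction with
    | mem x hx =>
      intro w hw
      obtain ⟨s, hs, rfl⟩ := hx
      rcases hU U s hs w hw with e | ⟨t, ht, e⟩
      · rw [e, map_one]
        exact one_mem _
      · rw [e, hΦ]
        exact Subgroup.subset_closure ⟨t.1, ⟨t.2, ht⟩, rfl⟩
    | one =>
      intro w _
      rw [c_one M q c hc, map_one]
      exact one_mem _
    | mul x y hx' _ hx hy =>
      intro w hw
      rw [hc, map_mul]
      exact mul_mem (hx w hw) (hy _ (mul_mem hw (q_mem M q hq U hx')))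
    | inv x hx' hx =>
      intro w hw
      have hw' : w * q x⁻¹ ∈ WP M U := by
        rw [map_inv]
        exact mul_mem hw (inv_mem (q_mem M q hq U hx'))
      rw [c_inv M q c hc, map_inv]
      exact inv_mem (hx _ hw')
  refine ⟨MonoidHom.mk' (fun x => ⟨Φ (c x.1 1), hker x⟩) ?_, ?_, ?_, ?_⟩
  · intro x y
    apply Subtype.ext
    show Φ (c (x.1 * y.1) 1) = Φ (c x.1 1) * Φ (c y.1 1)
    rw [hc, map_mul, hq1 x, mul_one]
  · intro x
    exact hΦD _
  · intro x hx
    apply Subtype.ext
    exact hfix x.1 hx 1 (one_mem _)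
  · intro U x hx
    exact hcU U x.1 hx 1 (one_mem _)

end Unf.H34
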