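import Pool.Agent.Helper12_UNF.Stmts

set_option autoImplicit false

/-!
# WIN: intersections of parabolic subgroups of a Coxeter group
-/

namespace Unf.H34

open Art Unf

theorem win (h : ChrStmt) : WinStmt := by
  intro S M D U x hD hU
  rw [h M (D ∩ U) x]
  intro v s hs
  by_cases hsD : s ∈ D
  · have hsU : s ∉ U := fun hsU => hs ⟨hsD, hsU⟩
    exact (h M U x).1 hU v s hsU
  · exact (h M D x).1 hD v s hsD

end Unf.H34
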